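import Pool.Agent.W_MP_3bfddb_co.Main

set_option autoImplicit false

namespace Pool.Agent.W_MP_3bfddb_co

section
variable (n a : ℕ) (θ h : ℤ → ℕ)

/-- The union of the vertical tiles in layer `(ρ, k)` (as a set of heights). -/
def layer (r : Idx n) : Set ℤ :=
  {y | ∃ c ∈ {c : ℤ | (c : ZMod (n + 1)) = r.1 ∧ (r.2 : ℕ) < θ c}, y - c ∈ tile n a}

/-- First system of hole sets. -/
def sysS : Option (Idx n) → Set (ℤ × ℤ)
  | none => Set.univ
  | some r => {p | p.2 ∉ layer n a θ r}

/-- Second system of hole sets. -/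
def sysB (r : Idx n) : Set (ℤ × ℤ) := {p | (r.2 : ℕ) < h p.2 → (p.1 : ZMod (n + 1)) = r.1}

theorem sysS_hole (j : Option (Idx n)) :
    Tileable (prodC (lineC n a) (lineC n a)) (sysS n a θ j)ᶜ := by
  rcases j with _ | r
  · simpa [sysS] using Tileable.empty _
  · refine Tileable.snd fun x => ?_
    have := tileable_positions n a {c : ℤ | (c : ZMod (n + 1)) = r.1 ∧ (r.2 : ℕ) < θ c} r.1
      (fun c hc => hc.1)
    convert this using 1
    ext y
    simp only [sysS, layer, Set.mem_ofPred_eq, Set.mem_compl_iff, not_not]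

theorem sysB_hole (han : a ≤ n) (r : Idx n) :
    Tileable (prodC (lineC n a) (lineC n a)) (sysB n h r)ᶜ := by
  refine Tileable.fst fun y => ?_
  by_cases hy : (r.2 : ℕ) < h y
  · convert tileable_residue n a han r.1 using 1
    ext x
    simp [sysB, hy]
  · convert Tileable.empty (lineC n a) using 1
    ext x
    simp [sysB, hy]

theorem card_split {ι : Type} [Fintype ι] (P : ι → Prop) :
    Nat.card {r // P r} + Nat.card {r // ¬ P r} = Fintype.card ι := by
  classical
  rw [Nat.card_eq_fintype_card, Nat.card_eq_fintype_card, Fintype.card_subtype,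
    Fintype.card_subtype, Finset.card_filter_add_card_filter_not]
  rfl

theorem card_sysB (hh : ∀ y, h y ≤ n + 1) (p : ℤ × ℤ) :
    Nat.card {r // p ∈ sysB n h r} + n * h p.2 = (n + 1) * (n + 1) := by
  classical
  have h1 : Nat.card {r // ¬ p ∈ sysB n h r} = n * h p.2 := by
    rw [Nat.card_eq_fintype_card, Fintype.card_subtype]
    have : (Finset.univ.filter fun r : Idx n => ¬ p ∈ sysB n h r) =
        (Finset.univ.erase (p.1 : ZMod (n + 1))) ×ˢ
          (Finset.univ.filter fun k : Fin (n + 1) => (k : ℕ) < h p.2) := by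
      ext ⟨ρ, k⟩
      rw [Finset.mem_filter, Finset.mem_product, Finset.mem_erase, Finset.mem_filter]
      simp only [sysB, Finset.mem_univ, true_and, Set.mem_ofPred_eq, and_true]
      constructor
      · intro hk
        push Not at hk
        exact ⟨fun e => hk.2 e.symm, hk.1⟩
      · rintro ⟨h1, h2⟩ h3
        exact h1 (h3 h2).symm
    rw [this, Finset.card_product, Finset.card_erase_of_mem (Finset.mem_univ _), Finset.card_univ,
      ZMod.card]
    congr 1
    have : (Finset.univ.filter fun k : Fin (n + 1) => (k : ℕ) < h p.2).card = h p.2 := by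
      rw [Fin.card_filter_val_lt]
      exact min_eq_right (hh _)
    exact this
  have h2 := card_split (fun r => p ∈ sysB n h r)
  rw [h1] at h2
  rw [h2]
  simp [Idx, ZMod.card]

theorem card_layers (hθ : ∀ y, θ y ≤ n + 1) (y : ℤ) :
    Nat.card {r // y ∈ layer n a θ r} =
      ∑ t ∈ (Finset.range (n + 1)).erase a, θ (y - t) := by
  classical
  have h0 : (((Finset.range (n + 1)).erase a).sigma (fun t => Finset.range (θ (y - (t : ℤ))))).card
      = ∑ t ∈ (Finset.range (n + 1)).erase a, θ (y - t) := by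
    rw [Finset.card_sigma]
    simp
  rw [← h0, Nat.card_eq_fintype_card, Fintype.card_subtype]
  symm
  refine Finset.card_bij (fun q _ => (((y - (q.1 : ℤ) : ℤ) : ZMod (n + 1)),
    Fin.ofNat (n + 1) q.2)) ?_ ?_ ?_
  · rintro ⟨t, k⟩ hq
    rw [Finset.mem_sigma, Finset.mem_erase, Finset.mem_range, Finset.mem_range] at hq
    obtain ⟨⟨hta, htn⟩, hk⟩ := hq
    simp only at hta htn hk
    rw [Finset.mem_filter]
    refine ⟨Finset.mem_univ _, y - (t : ℤ), ⟨rfl, ?_⟩, ?_, ?_, ?_⟩
    · have hk' : k < n + 1 := lt_of_lt_of_le hk (hθ _)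
      simp [Fin.ofNat, Nat.mod_eq_of_lt hk', hk]
    · simp
    · simp; omega
    · simp; omega
  · rintro ⟨t, k⟩ hq ⟨t', k'⟩ hq' heq
    rw [Finset.mem_sigma, Finset.mem_erase, Finset.mem_range, Finset.mem_range] at hq hq'
    obtain ⟨⟨hta, htn⟩, hk⟩ := hq
    obtain ⟨⟨hta', htn'⟩, hk'⟩ := hq'
    simp only at hta htn hk hta' htn' hk'
    simp only [Prod.mk.injEq] at heq
    obtain ⟨h1, h2⟩ := heq
    have htt : t = t' := by
      rw [ZMod.intCast_eq_intCast_iff_dvd_sub] at h1
      obtain ⟨c, hc⟩ := h1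
      push_cast at hc
      have hc0 : c = 0 := by
        by_contra hc0
        rcases lt_or_gt_of_ne hc0 with h | h
        · nlinarith
        · nlinarith
      rw [hc0] at hc
      omega
    subst htt
    have hk1 : k < n + 1 := lt_of_lt_of_le hk (hθ _)
    have hk2 : k' < n + 1 := lt_of_lt_of_le hk' (hθ _)
    have : k = k' := by
      have := congrArg Fin.val h2
      simpa [Fin.ofNat, Nat.mod_eq_of_lt hk1, Nat.mod_eq_of_lt hk2] using this
    subst this
    rfl
  · rintro ⟨ρ, k⟩ hr
    rw [Finset.mem_filter] at hr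
    obtain ⟨-, c, ⟨hc, hk⟩, h0, hn, ha⟩ := hr
    simp only at hc hk
    refine ⟨⟨(y - c).toNat, k⟩, ?_, ?_⟩
    · rw [Finset.mem_sigma, Finset.mem_erase, Finset.mem_range, Finset.mem_range]
      simp only
      refine ⟨⟨by omega, by omega⟩, ?_⟩
      have : y - ((y - c).toNat : ℤ) = c := by omega
      rw [this]
      exact hk
    · have : y - ((y - c).toNat : ℤ) = c := by omega
      simp only [this, hc, Prod.mk.injEq, true_and]
      simp

theorem card_sysS (hθ : ∀ y, θ y ≤ n + 1) (p : ℤ × ℤ) :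
    Nat.card {j // p ∈ sysS n a θ j} +
      ∑ t ∈ (Finset.range (n + 1)).erase a, θ (p.2 - t) = (n + 1) * (n + 1) + 1 := by
  classical
  have h1 : Nat.card {j // ¬ p ∈ sysS n a θ j} =
      ∑ t ∈ (Finset.range (n + 1)).erase a, θ (p.2 - t) := by
    rw [← card_layers n a θ hθ p.2]
    symm
    refine Nat.card_congr ⟨fun r => ⟨some r.1, ?_⟩, fun j => ?_, ?_, ?_⟩
    · simpa [sysS] using r.2
    · rcases j with ⟨_ | r, hj⟩
      · exact absurd (by simp [sysS]) hj
      · exact ⟨r, by simpa [sysS] using hj⟩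
    · rintro ⟨r, hr⟩
      rfl
    · rintro ⟨_ | r, hj⟩
      · exact absurd (by simp [sysS]) hj
      · rfl
  have h2 := card_split (fun j => p ∈ sysS n a θ j)
  rw [h1] at h2
  rw [h2]
  simp [Idx, ZMod.card]

end

/-- The normalised tile tiles the ten-dimensional lattice. -/
theorem tile_ten (n a : ℕ) (ha : 0 < a) (han : a < n) :
    Tileable (prodC (prodC (lineC n a) (lineC n a))
      (prodC (prodC (prodC (lineC n a) (lineC n a)) (prodC (lineC n a) (lineC n a)))
        (prodC (prodC (prodC (lineC n a) (lineC n a)) (lineC n a)) (lineC n a)))) Set.univ := by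
  obtain ⟨θ, h, hθ, hh, hrel⟩ := exists_theta_nat n a ha han
  refine tile_of_typeI_typeII (typeI_plane n a han.le) ?_
  refine TypeII.upgrade_multi (J := Option (Idx n)) (K := Idx n)
    (typeII_option n a (by omega) han.le (typeI_plane n a han.le)) (typeI_plane n a han.le)
    (sysS n a θ) (sysB n h) (sysS_hole n a θ) (sysB_hole n a h han.le) ?_
  intro p
  have h1 := card_sysS n a θ (fun y => by have := hθ y; omega) p
  have h2 := card_sysB n h (fun y => by have := hh y; omega) p
  have h3 := hrel p.2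
  rw [h3] at h1
  omega

end Pool.Agent.W_MP_3bfddb_co
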