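import Mathlib

set_option autoImplicit false

namespace Pool.Agent.W_MP_3bfddb_co

variable {X Y Z W : Type}

/-- `A` is a disjoint union of members of the family `C`. -/
def Tileable (C : Set (Set X)) (A : Set X) : Prop :=
  ∃ P : Set (Set X), P ⊆ C ∧ P.PairwiseDisjoint id ∧ ⋃₀ P = A

theorem Tileable.empty (C : Set (Set X)) : Tileable C (∅ : Set X) :=
  ⟨∅, by simp, by simp, by simp⟩

theorem Tileable.iUnion {ι : Type} {C : Set (Set X)} {A : ι → Set X}
    (h : ∀ i, Tileable C (A i)) (hd : Pairwise (fun i j => Disjoint (A i) (A j))) :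
    Tileable C (⋃ i, A i) := by
  choose P hPC hPd hPU using h
  refine ⟨⋃ i, P i, by simpa using hPC, ?_, ?_⟩
  · intro s hs t ht hst
    simp only [Set.mem_iUnion] at hs ht
    obtain ⟨i, hi⟩ := hs
    obtain ⟨j, hj⟩ := ht
    by_cases hij : i = j
    · subst hij
      exact hPd i hi hj hst
    · have h1 : s ⊆ A i := by rw [← hPU i]; exact Set.subset_sUnion_of_mem hi
      have h2 : t ⊆ A j := by rw [← hPU j]; exact Set.subset_sUnion_of_mem hj
      exact (hd hij).mono h1 h2
  · rw [Set.sUnion_iUnion]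
    simp [hPU]

theorem Tileable.union {C : Set (Set X)} {A B : Set X}
    (hA : Tileable C A) (hB : Tileable C B) (hd : Disjoint A B) : Tileable C (A ∪ B) := by
  have : A ∪ B = ⋃ b : Bool, (if b then A else B) := by
    ext x
    simp only [Set.mem_union, Set.mem_iUnion, Bool.exists_bool]
    simp [or_comm]
  rw [this]
  refine Tileable.iUnion ?_ ?_
  · intro b; cases b <;> simpa
  · intro i j hij
    cases i <;> cases j <;> simp_all [disjoint_comm]

theorem Tileable.image {C : Set (Set X)} {D : Set (Set Y)} {A : Set X} (f : X → Y)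
    (hf : Function.Injective f) (hCD : ∀ S ∈ C, f '' S ∈ D) (hA : Tileable C A) :
    Tileable D (f '' A) := by
  obtain ⟨P, hPC, hPd, hPU⟩ := hA
  refine ⟨(fun S => f '' S) '' P, ?_, ?_, ?_⟩
  · rintro _ ⟨S, hS, rfl⟩
    exact hCD S (hPC hS)
  · rintro _ ⟨S, hS, rfl⟩ _ ⟨S', hS', rfl⟩ hne
    have hne' : S ≠ S' := fun h => hne (by rw [h])
    have := hPd hS hS' hne'
    simp only [Function.onFun, id_eq] at this ⊢
    exact (Set.disjoint_image_iff hf).2 this
  · rw [← hPU, Set.sUnion_image, Set.sUnion_eq_biUnion, Set.image_iUnion₂]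

/-- Lines of a product: a member of `C` at a fixed second coordinate, or a member of `D` at a fixed
first coordinate. -/
def prodC (C : Set (Set X)) (D : Set (Set Y)) : Set (Set (X × Y)) :=
  {S | (∃ A ∈ C, ∃ y, S = (fun x => (x, y)) '' A) ∨ (∃ B ∈ D, ∃ x, S = (fun y => (x, y)) '' B)}

theorem Tileable.fst {C : Set (Set X)} {D : Set (Set Y)} {A : Set (X × Y)}
    (h : ∀ y, Tileable C {x | (x, y) ∈ A}) : Tileable (prodC C D) A := by
  have hA : A = ⋃ y, (fun x => (x, y)) '' {x | (x, y) ∈ A} := by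
    ext ⟨x, y⟩
    simp
  rw [hA]
  refine Tileable.iUnion ?_ ?_
  · intro y
    refine (h y).image _ (fun a b hab => by simpa using hab) ?_
    intro S hS
    exact Or.inl ⟨S, hS, y, rfl⟩
  · intro y y' hyy'
    rw [Set.disjoint_left]
    rintro _ ⟨x, _, rfl⟩ ⟨x', _, h'⟩
    simp only [Prod.mk.injEq] at h'
    exact hyy' h'.2.symm

theorem Tileable.snd {C : Set (Set X)} {D : Set (Set Y)} {A : Set (X × Y)}
    (h : ∀ x, Tileable D {y | (x, y) ∈ A}) : Tileable (prodC C D) A := by
  have hA : A = ⋃ x, (fun y => (x, y)) '' {y | (x, y) ∈ A} := by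
    ext ⟨x, y⟩
    simp
  rw [hA]
  refine Tileable.iUnion ?_ ?_
  · intro x
    refine (h x).image _ (fun a b hab => by simpa using hab) ?_
    intro S hS
    exact Or.inr ⟨S, hS, x, rfl⟩
  · intro x x' hxx'
    rw [Set.disjoint_left]
    rintro _ ⟨y, _, rfl⟩ ⟨y', _, h'⟩
    simp only [Prod.mk.injEq] at h'
    exact hxx' h'.1.symm

/-- Type I family: a partition of `X` into classes indexed by `K` such that the complement of each
class is tileable. -/
def TypeI (C : Set (Set X)) (K : Type) : Prop :=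
  ∃ σ : X → K, ∀ k, Tileable C {x | σ x ≠ k}

/-- Type II family: disjoint classes indexed by `K` such that the complement of the union of all
classes but one is tileable. -/
def TypeII (C : Set (Set X)) (K : Type) : Prop :=
  ∃ κ : X → Option K, ∀ k, Tileable C {x | κ x = none ∨ κ x = some k}

theorem TypeI.congr {C : Set (Set X)} {K K' : Type} (e : K ≃ K') (h : TypeI C K) :
    TypeI C K' := by
  obtain ⟨σ, hσ⟩ := h
  refine ⟨fun x => e (σ x), fun k => ?_⟩
  have := hσ (e.symm k)
  convert this using 2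
  ext x
  simp [Equiv.eq_symm_apply]

theorem TypeI.prod {C : Set (Set X)} {D : Set (Set Y)} {K K' : Type} (h : TypeI C K)
    (h' : TypeI D K') : TypeI (prodC C D) (K × K') := by
  obtain ⟨σ, hσ⟩ := h
  obtain ⟨τ, hτ⟩ := h'
  refine ⟨fun p => (σ p.1, τ p.2), ?_⟩
  rintro ⟨k, k'⟩
  have : {p : X × Y | (σ p.1, τ p.2) ≠ (k, k')} =
      {p : X × Y | σ p.1 ≠ k} ∪ {p : X × Y | σ p.1 = k ∧ τ p.2 ≠ k'} := by
    ext ⟨x, y⟩
    simp only [ne_eq, Prod.mk.injEq, not_and, Set.mem_ofPred_eq, Set.mem_union]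
    by_cases hx : σ x = k <;> simp [hx]
  rw [this]
  refine Tileable.union (Tileable.fst fun y => hσ k) (Tileable.snd fun x => ?_) ?_
  · by_cases hx : σ x = k
    · simpa [hx] using hτ k'
    · simpa [hx] using Tileable.empty D
  · rw [Set.disjoint_left]
    rintro ⟨x, y⟩ h1 h2
    exact h1 h2.1

/-- Type I times Type II gives a tiling of the product. -/
theorem tile_of_typeI_typeII {C : Set (Set X)} {D : Set (Set Y)} {K : Type} (h : TypeI C K)
    (h' : TypeII D K) : Tileable (prodC C D) Set.univ := by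
  obtain ⟨σ, hσ⟩ := h
  obtain ⟨κ, hκ⟩ := h'
  have : (Set.univ : Set (X × Y)) =
      {p : X × Y | ∃ k, κ p.2 = some k ∧ σ p.1 ≠ k} ∪
        {p : X × Y | κ p.2 = none ∨ κ p.2 = some (σ p.1)} := by
    ext ⟨x, y⟩
    simp only [Set.mem_univ, Set.mem_union, Set.mem_ofPred_eq, true_iff]
    rcases hy : κ y with _ | k
    · simp
    · by_cases hk : σ x = k
      · right; right; rw [hk]
      · left; exact ⟨k, rfl, hk⟩
  rw [this]
  refine Tileable.union (Tileable.fst fun y => ?_) (Tileable.snd fun x => hκ (σ x)) ?_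
  · rcases hy : κ y with _ | k
    · simpa [hy] using Tileable.empty C
    · simpa [hy] using hσ k
  · rw [Set.disjoint_left]
    rintro ⟨x, y⟩ ⟨k, hk, hne⟩ h2
    simp only [Set.mem_ofPred_eq] at h2 hk hne
    rw [hk] at h2
    simp only [reduceCtorEq, Option.some.injEq, false_or] at h2
    exact hne h2.symm

/-- Upgrading a Type II family along two partitions of the same set into hole sets. -/
theorem TypeII.upgrade {C : Set (Set X)} {D : Set (Set Y)} {J K : Type} (h : TypeII D J)
    (s : X → Option J) (b : X → Option K) (hsb : ∀ x, s x = none ↔ b x = none)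
    (hs : ∀ j, Tileable C {x | s x ≠ some j}) (hb : ∀ k, Tileable C {x | b x ≠ some k}) :
    TypeII (prodC C D) K := by
  classical
  obtain ⟨κ, hκ⟩ := h
  refine ⟨fun p => if κ p.2 = none then none else if s p.1 = κ p.2 then b p.1 else none, ?_⟩
  intro k
  have : {p : X × Y | (if κ p.2 = none then none else if s p.1 = κ p.2 then b p.1 else none)
        = none ∨ (if κ p.2 = none then none else if s p.1 = κ p.2 then b p.1 else none)
        = some k} =
      {p : X × Y | (κ p.2 = none ∧ b p.1 ≠ some k) ∨ (κ p.2 ≠ none ∧ s p.1 ≠ κ p.2)} ∪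
        {p : X × Y | b p.1 = some k ∧ (κ p.2 = none ∨ κ p.2 = s p.1)} := by
    ext ⟨x, y⟩
    simp only [Set.mem_ofPred_eq, Set.mem_union]
    by_cases h1 : κ y = none
    · simp [h1]
      tauto
    · by_cases h2 : s x = κ y
      · have h3 : s x ≠ none := by rw [h2]; exact h1
        have h4 : b x ≠ none := fun h => h3 ((hsb x).2 h)
        simp [h1, h2, h4]
      · simp [h1, h2]
  rw [this]
  refine Tileable.union (Tileable.fst fun y => ?_) (Tileable.snd fun x => ?_) ?_
  · rcases hy : κ y with _ | j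
    · simpa [hy] using hb k
    · simpa [hy] using hs j
  · by_cases hx : b x = some k
    · have h3 : s x ≠ none := fun h => by
        rw [(hsb x).1 h] at hx; simp at hx
      obtain ⟨j, hj⟩ := Option.ne_none_iff_exists'.1 h3
      simpa [hx, hj] using hκ j
    · simpa [hx] using Tileable.empty D
  · rw [Set.disjoint_left]
    rintro ⟨x, y⟩ h1 h2
    simp only [Set.mem_ofPred_eq] at h1 h2
    rcases h1 with ⟨_, h1⟩ | ⟨h1, h1'⟩
    · exact h1 h2.1
    · rcases h2.2 with h | h
      · exact h1 h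
      · exact h1' h.symm

/-- Turning a multiset identity between hole sets of `Y` into an honest identity, at the cost of a
Type I family. -/
theorem TypeII.upgrade_multi {C : Set (Set X)} {D : Set (Set Y)} {E : Set (Set W)} {J K : Type}
    [Finite J] [Finite K] (hE : TypeII E J) (hC : TypeI C K)
    (S : J → Set Y) (B : K → Set Y)
    (hS : ∀ j, Tileable D (S j)ᶜ) (hB : ∀ k, Tileable D (B k)ᶜ)
    (hcard : ∀ y, Nat.card {j // y ∈ S j} = Nat.card {k // y ∈ B k}) :
    TypeII (prodC (prodC C D) E) K := by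
  classical
  obtain ⟨σ, hσ⟩ := hC
  have hφ : ∀ y, Nonempty ({j // y ∈ S j} ≃ {k // y ∈ B k}) := fun y =>
    Finite.card_eq.1 (hcard y)
  let φ : ∀ y, ({j // y ∈ S j} ≃ {k // y ∈ B k}) := fun y => (hφ y).some
  refine hE.upgrade
    (fun p : X × Y => if h : p.2 ∈ B (σ p.1) then some ((φ p.2).symm ⟨σ p.1, h⟩).1 else none)
    (fun p : X × Y => if p.2 ∈ B (σ p.1) then some (σ p.1) else none) ?_ ?_ ?_
  · rintro ⟨x, y⟩
    by_cases h : y ∈ B (σ x) <;> simp [h]
  · intro j
    have key : ∀ x y, (if h : y ∈ B (σ x) then some ((φ y).symm ⟨σ x, h⟩).1 else none) = some j ↔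
        ∃ h : y ∈ S j, σ x = (φ y ⟨j, h⟩).1 := by
      intro x y
      constructor
      · intro h
        by_cases hb : y ∈ B (σ x)
        · simp only [hb, dite_true, Option.some.injEq] at h
          have hj : y ∈ S j := by rw [← h]; exact ((φ y).symm ⟨σ x, hb⟩).2
          refine ⟨hj, ?_⟩
          have : (φ y).symm ⟨σ x, hb⟩ = ⟨j, hj⟩ := Subtype.ext h
          rw [← this, Equiv.apply_symm_apply]
        · simp [hb] at h
      · rintro ⟨hj, h⟩
        have hb : y ∈ B (σ x) := by rw [h]; exact (φ y ⟨j, hj⟩).2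
        simp only [hb, dite_true, Option.some.injEq]
        have : (⟨σ x, hb⟩ : {k // y ∈ B k}) = φ y ⟨j, hj⟩ := Subtype.ext h
        rw [this, Equiv.symm_apply_apply]
    have : {p : X × Y | (if h : p.2 ∈ B (σ p.1) then some ((φ p.2).symm ⟨σ p.1, h⟩).1 else none)
          ≠ some j} =
        {p : X × Y | p.2 ∈ (S j)ᶜ} ∪ {p : X × Y | ∃ h : p.2 ∈ S j, σ p.1 ≠ (φ p.2 ⟨j, h⟩).1} := by
      ext ⟨x, y⟩
      simp only [Set.mem_ofPred_eq, ne_eq, key, Set.mem_union, Set.mem_compl_iff]
      by_cases h : y ∈ S j <;> simp [h]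
    rw [this]
    refine Tileable.union (Tileable.snd fun x => hS j) (Tileable.fst fun y => ?_) ?_
    · by_cases h : y ∈ S j
      · simpa [h] using hσ (φ y ⟨j, h⟩).1
      · simpa [h] using Tileable.empty C
    · rw [Set.disjoint_left]
      rintro ⟨x, y⟩ h1 ⟨h2, _⟩
      exact h1 h2
  · intro k
    have : {p : X × Y | (if p.2 ∈ B (σ p.1) then some (σ p.1) else none) ≠ some k} =
        {p : X × Y | p.2 ∈ (B k)ᶜ} ∪ {p : X × Y | p.2 ∈ B k ∧ σ p.1 ≠ k} := by
      ext ⟨x, y⟩
      simp only [Set.mem_ofPred_eq, ne_eq, Set.mem_union, Set.mem_compl_iff]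
      by_cases h : σ x = k
      · subst h
        simp
      · by_cases h' : y ∈ B (σ x) <;> simp [h, h'] <;> tauto
    rw [this]
    refine Tileable.union (Tileable.snd fun x => hB k) (Tileable.fst fun y => ?_) ?_
    · by_cases h : y ∈ B k
      · simpa [h] using hσ k
      · simpa [h] using Tileable.empty C
    · rw [Set.disjoint_left]
      rintro ⟨x, y⟩ h1 ⟨h2, _⟩
      exact h1 h2

end Pool.Agent.W_MP_3bfddb_co
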