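import Mathlib

set_option autoImplicit false

namespace Pool.Agent.W_MP_3bfddb_co

section
variable {A : Type} [AddCommGroup A] {m : ℕ}

/-- The shift of windows of length `m + 1` for the recurrence `u (y+m+1) + u y = F (middle)`. -/
def windowShift (F : (Fin m → A) → A) : Equiv.Perm (Fin (m + 1) → A) where
  toFun v := Fin.snoc (α := fun _ => A) (Fin.tail v) (F (Fin.tail v) - v 0)
  invFun w := Fin.cons (α := fun _ => A) (F (Fin.init w) - w (Fin.last m)) (Fin.init w)
  left_inv v := by
    simp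
  right_inv w := by
    simp

theorem windowShift_apply_castSucc (F : (Fin m → A) → A) (v : Fin (m + 1) → A) (i : Fin m) :
    windowShift F v i.castSucc = v i.succ := by
  simp [windowShift, Fin.tail]

theorem windowShift_apply_last (F : (Fin m → A) → A) (v : Fin (m + 1) → A) :
    windowShift F v (Fin.last m) = F (Fin.tail v) - v 0 := by
  simp [windowShift]

theorem windowShift_pow (F : (Fin m → A) → A) (i : ℕ) (hi : i < m + 1) (v : Fin (m + 1) → A) :
    ((windowShift F) ^ i) v 0 = v ⟨i, hi⟩ := by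
  induction i generalizing v with
  | zero => simp
  | succ i ih =>
    rw [pow_succ, Equiv.Perm.mul_apply, ih (by omega)]
    exact windowShift_apply_castSucc F v ⟨i, by omega⟩

theorem exists_biinfinite (F : (Fin m → A) → A) :
    ∃ u : ℤ → A, ∀ y : ℤ, u (y + (m + 1 : ℕ)) + u y = F (fun j => u (y + (j + 1 : ℕ))) := by
  refine ⟨fun y => ((windowShift F) ^ y) 0 0, fun y => ?_⟩
  set v := ((windowShift F) ^ y) (0 : Fin (m + 1) → A) with hv
  have h1 : ∀ i : ℕ, ((windowShift F) ^ (y + (i : ℤ))) (0 : Fin (m + 1) → A) 0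
      = ((windowShift F) ^ i) v 0 := by
    intro i
    rw [add_comm y (i : ℤ), zpow_add, Equiv.Perm.mul_apply, zpow_natCast, ← hv]
  have h2 : ∀ j : Fin m, ((windowShift F) ^ (y + ((j + 1 : ℕ) : ℤ))) (0 : Fin (m + 1) → A) 0
      = v j.succ := by
    intro j
    rw [h1, windowShift_pow F (j + 1) (by omega)]
    rfl
  have h3 : (fun j : Fin m => ((windowShift F) ^ (y + ((j + 1 : ℕ) : ℤ)))
      (0 : Fin (m + 1) → A) 0) = Fin.tail v := by
    funext j
    rw [h2 j]
    rfl
  have h4 : ((windowShift F) ^ (y + ((m + 1 : ℕ) : ℤ))) (0 : Fin (m + 1) → A) 0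
      = F (Fin.tail v) - v 0 := by
    rw [h1, pow_succ, Equiv.Perm.mul_apply, windowShift_pow F m (by omega)]
    exact windowShift_apply_last F v
  simp only
  rw [h3, h4, ← hv]
  simp

end

/-- A two-sided sequence modulo `n` whose sums along all translates of the punctured interval
`{0, …, n} \ {a}` are `1`. -/
theorem exists_theta (n a : ℕ) (ha : 0 < a) (han : a < n) :
    ∃ θ : ℤ → ZMod n, ∀ y : ℤ, ∑ t ∈ (Finset.range (n + 1)).erase a, θ (y - t) = 1 := by
  obtain ⟨m, rfl⟩ : ∃ m, n = m + 1 := ⟨n - 1, by omega⟩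
  obtain ⟨u, hu⟩ := exists_biinfinite (A := ZMod (m + 1)) (m := m)
    (fun w => 1 - ∑ j : Fin m, if (j : ℕ) + 1 = a then 0 else w j)
  refine ⟨fun y => u (-y), fun y => ?_⟩
  have h1 : ∑ t ∈ (Finset.range (m + 1 + 1)).erase a, u (-(y - t)) =
      ∑ t ∈ Finset.range (m + 1 + 1), if t = a then 0 else u (-y + t) := by
    rw [Finset.sum_ite, Finset.sum_const_zero, zero_add]
    refine Finset.sum_congr ?_ ?_
    · ext t; simp [and_comm]
    · intro t _
      congr 1
      ring
  simp only
  rw [h1, Finset.sum_range_succ, Finset.sum_range_succ']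
  have h2 := hu (-y)
  rw [Finset.sum_range fun j => if j + 1 = a then (0 : ZMod (m + 1)) else u (-y + ((j + 1 : ℕ) : ℤ))]
  rw [if_neg (by omega), if_neg (by omega)]
  have h3 : u (-y + ((m + 1 : ℕ) : ℤ)) = 1 - (∑ j : Fin m, if (j : ℕ) + 1 = a then (0 : ZMod (m + 1))
      else u (-y + ((j + 1 : ℕ) : ℤ))) - u (-y) := by
    rw [← h2]; ring
  rw [h3]
  simp

/-- The same sequence with representatives in `[0, n)`. -/
theorem exists_theta_nat (n a : ℕ) (ha : 0 < a) (han : a < n) :
    ∃ θ h : ℤ → ℕ, (∀ y, θ y < n) ∧ (∀ y, h y < n) ∧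
      ∀ y : ℤ, ∑ t ∈ (Finset.range (n + 1)).erase a, θ (y - t) = 1 + n * h y := by
  obtain ⟨θ, hθ⟩ := exists_theta n a ha han
  have : NeZero n := ⟨by omega⟩
  have : Fact (1 < n) := ⟨by omega⟩
  refine ⟨fun y => (θ y).val, fun y =>
    (∑ t ∈ (Finset.range (n + 1)).erase a, (θ (y - t)).val) / n, fun y => ZMod.val_lt _,
    fun y => ?_, fun y => ?_⟩
  · rw [Nat.div_lt_iff_lt_mul (by omega)]
    calc ∑ t ∈ (Finset.range (n + 1)).erase a, (θ (y - t)).val
        < ∑ t ∈ (Finset.range (n + 1)).erase a, n := by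
          refine Finset.sum_lt_sum_of_nonempty ⟨0, by simp; omega⟩ fun t _ => ZMod.val_lt _
      _ = n * n := by
          rw [Finset.sum_const, Finset.card_erase_of_mem (by simp; omega)]
          simp
  · have h1 : ((∑ t ∈ (Finset.range (n + 1)).erase a, (θ (y - t)).val : ℕ) : ZMod n) =
        ((1 : ℕ) : ZMod n) := by
      rw [Nat.cast_sum]
      simp only [ZMod.natCast_val, ZMod.cast_id', id_eq, Nat.cast_one]
      exact hθ y
    rw [ZMod.natCast_eq_natCast_iff, Nat.ModEq, Nat.mod_eq_of_lt (show 1 < n by omega)] at h1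
    have h2 := Nat.mod_add_div (∑ t ∈ (Finset.range (n + 1)).erase a, (θ (y - t)).val) n
    simp only
    omega

end Pool.Agent.W_MP_3bfddb_co
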