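import Pool.Agent.W_MP_3bfddb_co.Calculus
import Pool.Agent.W_MP_3bfddb_co.Recurrence

set_option autoImplicit false

namespace Pool.Agent.W_MP_3bfddb_co

/-- The normalised tile `{0, …, n} \ {a}`. -/
def tile (n a : ℕ) : Set ℤ := {t | 0 ≤ t ∧ t ≤ n ∧ t ≠ a}

/-- Translates of the normalised tile. -/
def lineC (n a : ℕ) : Set (Set ℤ) := {S | ∃ c : ℤ, S = {x | x - c ∈ tile n a}}

theorem tileable_positions (n a : ℕ) (Q : Set ℤ) (ρ : ZMod (n + 1))
    (hQ : ∀ c ∈ Q, (c : ZMod (n + 1)) = ρ) :
    Tileable (lineC n a) {x | ∃ c ∈ Q, x - c ∈ tile n a} := by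
  refine ⟨{S | ∃ c ∈ Q, S = {x | x - c ∈ tile n a}}, ?_, ?_, ?_⟩
  · rintro S ⟨c, _, rfl⟩
    exact ⟨c, rfl⟩
  · rintro S ⟨c, hc, rfl⟩ S' ⟨c', hc', rfl⟩ hne
    have hcc : c ≠ c' := fun h => hne (by rw [h])
    simp only [Function.onFun, id_eq]
    rw [Set.disjoint_left]
    intro x hx hx'
    apply hcc
    have h1 : ((c : ZMod (n + 1))) = (c' : ZMod (n + 1)) := by rw [hQ c hc, hQ c' hc']
    rw [ZMod.intCast_eq_intCast_iff_dvd_sub] at h1
    obtain ⟨k, hk⟩ := h1
    obtain ⟨h2, h3, _⟩ := hx
    obtain ⟨h4, h5, _⟩ := hx'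
    push_cast at hk
    have hk0 : k = 0 := by
      by_contra hk0
      rcases lt_or_gt_of_ne hk0 with h | h
      · nlinarith
      · nlinarith
    rw [hk0] at hk
    linarith
  · ext x
    constructor
    · rintro ⟨S, ⟨c, hc, rfl⟩, hx⟩
      exact ⟨c, hc, hx⟩
    · rintro ⟨c, hc, hx⟩
      exact ⟨_, ⟨c, hc, rfl⟩, hx⟩

theorem tileable_residue (n a : ℕ) (han : a ≤ n) (r : ZMod (n + 1)) :
    Tileable (lineC n a) {x : ℤ | (x : ZMod (n + 1)) ≠ r} := by
  have := tileable_positions n a {c : ℤ | (c : ZMod (n + 1)) = r - a} (r - a) (fun c hc => hc)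
  convert this using 1
  ext x
  constructor
  · intro hx
    simp only [Set.mem_ofPred_eq, ne_eq] at hx
    obtain ⟨v, hv, hlt⟩ : ∃ v : ℕ, (v : ZMod (n + 1)) = (x : ZMod (n + 1)) - r + (a : ZMod (n + 1)) ∧
        v < n + 1 := ⟨_, ZMod.natCast_zmod_val _, ZMod.val_lt _⟩
    refine ⟨x - (v : ℤ), ?_, ?_, ?_, ?_⟩
    · simp only [Set.mem_ofPred_eq]
      push_cast
      rw [hv]
      ring
    · simp
    · omega
    · intro h
      have h1 : v = a := by omega
      rw [h1] at hv
      apply hx
      have : (x : ZMod (n + 1)) - r = 0 := by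
        have := congrArg (fun z => z - (a : ZMod (n + 1))) hv
        simpa using this.symm
      exact sub_eq_zero.1 this
  · rintro ⟨c, hc, h0, hn, ha⟩ hx
    simp only [Set.mem_ofPred_eq] at hc
    have h1 : ((x - c : ℤ) : ZMod (n + 1)) = ((a : ℤ) : ZMod (n + 1)) := by
      push_cast
      rw [hx, hc]
      ring
    rw [ZMod.intCast_eq_intCast_iff_dvd_sub] at h1
    obtain ⟨k, hk⟩ := h1
    push_cast at hk
    have hk0 : k = 0 := by
      by_contra hk0
      rcases lt_or_gt_of_ne hk0 with h | h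
      · nlinarith
      · nlinarith
    rw [hk0] at hk
    apply ha
    linarith

theorem typeI_line (n a : ℕ) (han : a ≤ n) : TypeI (lineC n a) (ZMod (n + 1)) :=
  ⟨fun x => (x : ZMod (n + 1)), fun k => tileable_residue n a han k⟩

/-- Index set with `(n+1)^2` elements. -/
abbrev Idx (n : ℕ) : Type := ZMod (n + 1) × Fin (n + 1)

theorem typeI_plane (n a : ℕ) (han : a ≤ n) :
    TypeI (prodC (lineC n a) (lineC n a)) (Idx n) :=
  (typeI_line n a han).prod ((typeI_line n a han).congr (Equiv.refl _))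

theorem typeII_line (n a : ℕ) (ha : 0 < n) (han : a ≤ n) : TypeII (lineC n a) Bool := by
  classical
  have : Fact (1 < n + 1) := ⟨by omega⟩
  refine ⟨fun w => if (w : ZMod (n + 1)) = 0 then some false else
    if (w : ZMod (n + 1)) = 1 then some true else none, ?_⟩
  intro k
  cases k
  · convert tileable_residue n a han 1 using 2
    ext w
    by_cases h0 : (w : ZMod (n + 1)) = 0
    · simp [h0]
    · by_cases h1 : (w : ZMod (n + 1)) = 1 <;> simp [h0, h1]
  · convert tileable_residue n a han 0 using 2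
    ext w
    by_cases h0 : (w : ZMod (n + 1)) = 0
    · simp [h0]
    · by_cases h1 : (w : ZMod (n + 1)) = 1 <;> simp [h0, h1]

/-- A Type II family with one more class than a given Type I family. -/
theorem typeII_option {X : Type} {C : Set (Set X)} {K : Type} (n a : ℕ) (hn : 0 < n)
    (han : a ≤ n) (hC : TypeI C K) :
    TypeII (prodC (prodC C (lineC n a)) (lineC n a)) (Option K) := by
  classical
  have : Fact (1 < n + 1) := ⟨by omega⟩
  obtain ⟨σ, hσ⟩ := hC
  refine (typeII_line n a hn han).upgrade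
    (fun p : X × ℤ => if (p.2 : ZMod (n + 1)) = 0 then some false else
      if (p.2 : ZMod (n + 1)) = 1 then some true else none)
    (fun p : X × ℤ => if (p.2 : ZMod (n + 1)) = 0 then some none else
      if (p.2 : ZMod (n + 1)) = 1 then some (some (σ p.1)) else none) ?_ ?_ ?_
  · rintro ⟨x, y⟩
    by_cases h0 : (y : ZMod (n + 1)) = 0
    · simp [h0]
    · by_cases h1 : (y : ZMod (n + 1)) = 1 <;> simp [h0, h1]
  · intro j
    cases j
    · refine Tileable.snd fun x => ?_
      convert tileable_residue n a han 0 using 2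
      ext w
      by_cases h0 : (w : ZMod (n + 1)) = 0
      · simp [h0]
      · by_cases h1 : (w : ZMod (n + 1)) = 1 <;> simp [h0, h1]
    · refine Tileable.snd fun x => ?_
      convert tileable_residue n a han 1 using 2
      ext w
      by_cases h0 : (w : ZMod (n + 1)) = 0
      · simp [h0]
      · by_cases h1 : (w : ZMod (n + 1)) = 1 <;> simp [h0, h1]
  · intro j
    rcases j with _ | k
    · refine Tileable.snd fun x => ?_
      convert tileable_residue n a han 0 using 2
      ext w
      by_cases h0 : (w : ZMod (n + 1)) = 0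
      · simp [h0]
      · by_cases h1 : (w : ZMod (n + 1)) = 1 <;> simp [h0, h1]
    · have : {p : X × ℤ | (if (p.2 : ZMod (n + 1)) = 0 then some none else
          if (p.2 : ZMod (n + 1)) = 1 then some (some (σ p.1)) else none) ≠ some (some k)} =
          {p : X × ℤ | (p.2 : ZMod (n + 1)) ≠ 1} ∪
            {p : X × ℤ | (p.2 : ZMod (n + 1)) = 1 ∧ σ p.1 ≠ k} := by
        ext ⟨x, w⟩
        by_cases h0 : (w : ZMod (n + 1)) = 0
        · simp [h0]
        · by_cases h1 : (w : ZMod (n + 1)) = 1 <;> simp [h0, h1]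
      rw [this]
      refine Tileable.union (Tileable.snd fun x => tileable_residue n a han 1)
        (Tileable.fst fun y => ?_) ?_
      · by_cases h : (y : ZMod (n + 1)) = 1
        · simpa [h] using hσ k
        · simpa [h] using Tileable.empty C
      · rw [Set.disjoint_left]
        rintro ⟨x, y⟩ h1 ⟨h2, _⟩
        exact h1 h2

end Pool.Agent.W_MP_3bfddb_co
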