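import Pool.Agent.W_MP_3bfddb_co.Assemble

set_option autoImplicit false

namespace Pool.Agent.W_MP_3bfddb_co

/-- Copies of `T` parallel to a coordinate axis of `ℤ^ι`. -/
def axisLines (ι : Type) (T : Set ℤ) : Set (Set (ι → ℤ)) :=
  {S | ∃ (i : ι) (p : ι → ℤ), S = {x | x i - p i ∈ T ∧ ∀ j, j ≠ i → x j = p j}}

/-- `(X, C)` is a copy of `ℤ^ι` with axis-parallel copies of `T`. -/
def Realised {X : Type} (C : Set (Set X)) (ι : Type) (T : Set ℤ) : Prop :=
  ∃ e : X ≃ (ι → ℤ), ∀ S ∈ C, e '' S ∈ axisLines ι T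

theorem realised_line (n a : ℕ) : Realised (lineC n a) Unit (tile n a) := by
  refine ⟨(Equiv.funUnique Unit ℤ).symm, ?_⟩
  rintro S ⟨c, rfl⟩
  refine ⟨(), fun _ => c, ?_⟩
  ext x
  constructor
  · rintro ⟨y, hy, rfl⟩
    exact ⟨hy, fun j hj => absurd rfl hj⟩
  · rintro ⟨hx, _⟩
    refine ⟨x (), hx, ?_⟩
    funext u
    rfl

theorem Realised.prod {X Y : Type} {C : Set (Set X)} {D : Set (Set Y)} {ι κ : Type} {T : Set ℤ}
    (h : Realised C ι T) (h' : Realised D κ T) : Realised (prodC C D) (ι ⊕ κ) T := by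
  obtain ⟨e, he⟩ := h
  obtain ⟨e', he'⟩ := h'
  refine ⟨(Equiv.prodCongr e e').trans (Equiv.sumArrowEquivProdArrow ι κ ℤ).symm, ?_⟩
  rintro S (⟨A, hA, y, rfl⟩ | ⟨B, hB, x, rfl⟩)
  · obtain ⟨i, p, hip⟩ := he A hA
    refine ⟨Sum.inl i, Sum.elim p (e' y), ?_⟩
    ext z
    constructor
    · rintro ⟨_, ⟨x, hx, rfl⟩, rfl⟩
      have : e x ∈ e '' A := ⟨x, hx, rfl⟩
      rw [hip] at this
      obtain ⟨h1, h2⟩ := this
      refine ⟨h1, ?_⟩
      rintro (j | j) hj
      · exact h2 j (fun h => hj (by rw [h]))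
      · rfl
    · rintro ⟨h1, h2⟩
      have h3 : (fun j => z (Sum.inl j)) ∈ e '' A := by
        rw [hip]
        exact ⟨h1, fun j hj => h2 (Sum.inl j) (fun h => hj (Sum.inl.inj h))⟩
      obtain ⟨x, hx, hxz⟩ := h3
      refine ⟨(x, y), ⟨x, hx, rfl⟩, ?_⟩
      funext j
      rcases j with j | j
      · exact congrFun hxz j
      · exact (h2 (Sum.inr j) (by simp)).symm
  · obtain ⟨i, p, hip⟩ := he' B hB
    refine ⟨Sum.inr i, Sum.elim (e x) p, ?_⟩
    ext z
    constructor
    · rintro ⟨_, ⟨y, hy, rfl⟩, rfl⟩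
      have : e' y ∈ e' '' B := ⟨y, hy, rfl⟩
      rw [hip] at this
      obtain ⟨h1, h2⟩ := this
      refine ⟨h1, ?_⟩
      rintro (j | j) hj
      · rfl
      · exact h2 j (fun h => hj (by rw [h]))
    · rintro ⟨h1, h2⟩
      have h3 : (fun j => z (Sum.inr j)) ∈ e' '' B := by
        rw [hip]
        exact ⟨h1, fun j hj => h2 (Sum.inr j) (fun h => hj (Sum.inr.inj h))⟩
      obtain ⟨y, hy, hyz⟩ := h3
      refine ⟨(x, y), ⟨y, hy, rfl⟩, ?_⟩
      funext j
      rcases j with j | j
      · exact (h2 (Sum.inl j) (by simp)).symm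
      · exact congrFun hyz j

theorem Realised.tileable {X : Type} {C : Set (Set X)} {ι : Type} {T : Set ℤ}
    (h : Realised C ι T) (hX : Tileable C Set.univ) : Tileable (axisLines ι T) Set.univ := by
  obtain ⟨e, he⟩ := h
  have := hX.image e e.injective he
  rwa [Set.image_univ, e.surjective.range_eq] at this

theorem axisLines_reindex {ι κ : Type} {T : Set ℤ} (f : ι ≃ κ)
    (h : Tileable (axisLines ι T) Set.univ) : Tileable (axisLines κ T) Set.univ := by
  refine Realised.tileable (C := axisLines ι T) ⟨Equiv.arrowCongr f (Equiv.refl ℤ), ?_⟩ h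
  rintro S ⟨i, p, rfl⟩
  refine ⟨f i, fun k => p (f.symm k), ?_⟩
  ext z
  constructor
  · rintro ⟨x, ⟨h1, h2⟩, rfl⟩
    refine ⟨by simpa using h1, ?_⟩
    intro k hk
    simpa using h2 (f.symm k) (fun h => hk (by rw [← h, Equiv.apply_symm_apply]))
  · rintro ⟨h1, h2⟩
    refine ⟨fun j => z (f j), ⟨by simpa using h1, ?_⟩, ?_⟩
    · intro j hj
      simpa using h2 (f j) (fun h => hj (f.injective h))
    · funext k
      simp

theorem tileable_extend {ι κ : Type} {T : Set ℤ} (h : Tileable (axisLines ι T) Set.univ) :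
    Tileable (axisLines (ι ⊕ κ) T) Set.univ := by
  have h1 : Tileable (prodC (axisLines ι T) (∅ : Set (Set (κ → ℤ)))) Set.univ :=
    Tileable.fst fun y => by simpa using h
  have h2 : Realised (axisLines ι T) ι T := ⟨Equiv.refl _, fun S hS => by simpa using hS⟩
  have h3 : Realised (∅ : Set (Set (κ → ℤ))) κ T := ⟨Equiv.refl _, fun S hS => absurd hS (by simp)⟩
  exact (h2.prod h3).tileable h1

theorem tileable_fin_of_le {d e : ℕ} (hde : d ≤ e) {T : Set ℤ}
    (h : Tileable (axisLines (Fin d) T) Set.univ) : Tileable (axisLines (Fin e) T) Set.univ := by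
  obtain ⟨k, rfl⟩ := Nat.exists_eq_add_of_le hde
  exact axisLines_reindex finSumFinEquiv (tileable_extend (κ := Fin k) h)

/-- For `0 < a < n`, the tile `{0, …, n} \ {a}` tiles `ℤ^10` by axis-parallel translates. -/
theorem tile_fin_ten (n a : ℕ) (ha : 0 < a) (han : a < n) :
    Tileable (axisLines (Fin 10) (tile n a)) Set.univ := by
  have h1 := realised_line n a
  have h2 := h1.prod h1
  have h := (h2.prod ((h2.prod h2).prod ((h2.prod h1).prod h1))).tileable (tile_ten n a ha han)
  refine axisLines_reindex ?_ h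
  refine Fintype.equivFinOfCardEq ?_
  simp

/-- Intervals tile the line. -/
theorem tileable_interval (n : ℕ) (hn : 0 < n) :
    Tileable (axisLines (Fin 1) {t : ℤ | 0 ≤ t ∧ t < n}) Set.univ := by
  refine ⟨{S | ∃ c : ℤ, S = {x | x 0 - (n * c) ∈ {t : ℤ | 0 ≤ t ∧ t < n}}}, ?_, ?_, ?_⟩
  · rintro S ⟨c, rfl⟩
    refine ⟨0, fun _ => n * c, ?_⟩
    ext x
    constructor
    · intro hx
      exact ⟨hx, fun j hj => absurd (Subsingleton.elim _ _) hj⟩
    · intro hx
      exact hx.1
  · rintro S ⟨c, rfl⟩ S' ⟨c', rfl⟩ hne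
    have hcc : c ≠ c' := fun h => hne (by rw [h])
    simp only [Function.onFun, id_eq]
    rw [Set.disjoint_left]
    rintro x ⟨h1, h2⟩ ⟨h3, h4⟩
    apply hcc
    have hn' : (0 : ℤ) < n := by exact_mod_cast hn
    rcases lt_trichotomy c c' with h | h | h
    · nlinarith
    · exact h
    · nlinarith
  · ext x
    simp only [Set.mem_univ, iff_true]
    refine ⟨_, ⟨x 0 / n, rfl⟩, ?_⟩
    have hn' : (0 : ℤ) < n := by exact_mod_cast hn
    have h1 := Int.emod_nonneg (x 0) hn'.ne'
    have h2 := Int.emod_lt_of_pos (x 0) hn'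
    have h3 := Int.emod_add_mul_ediv (x 0) n
    refine ⟨by linarith, by linarith⟩

theorem tileable_translate {ι : Type} {T : Set ℤ} (c : ℤ)
    (h : Tileable (axisLines ι T) Set.univ) :
    Tileable (axisLines ι {t | t - c ∈ T}) Set.univ := by
  classical
  refine Realised.tileable (C := axisLines ι T) ⟨Equiv.refl _, ?_⟩ h
  rintro S ⟨i, p, rfl⟩
  refine ⟨i, Function.update p i (p i - c), ?_⟩
  ext x
  simp only [Equiv.coe_refl, Set.image_id]
  constructor
  · rintro ⟨h1, h2⟩
    refine ⟨?_, ?_⟩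
    · simp only [Function.update_self, Set.mem_ofPred_eq]
      have : x i - (p i - c) - c = x i - p i := by ring
      rw [this]; exact h1
    · intro j hj
      rw [Function.update_of_ne hj]
      exact h2 j hj
  · rintro ⟨h1, h2⟩
    simp only [Function.update_self, Set.mem_ofPred_eq] at h1
    refine ⟨?_, ?_⟩
    · have : x i - (p i - c) - c = x i - p i := by ring
      rw [this] at h1; exact h1
    · intro j hj
      have := h2 j hj
      rwa [Function.update_of_ne hj] at this

/-- Every nonempty interval with one point removed tiles `ℤ^d`, `d ≥ 10`, by axis-parallel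
translates. -/
theorem tileable_punctured (d : ℕ) (hd : 10 ≤ d) (a b c : ℤ) (hac : a ≤ c) (hcb : c ≤ b)
    (hab : a < b) : Tileable (axisLines (Fin d) (Set.Icc a b \ {c})) Set.univ := by
  obtain ⟨n, hn⟩ : ∃ n : ℕ, b = a + n := ⟨(b - a).toNat, by omega⟩
  obtain ⟨k, hk⟩ : ∃ k : ℕ, c = a + k := ⟨(c - a).toNat, by omega⟩
  subst hn hk
  rcases Nat.eq_zero_or_pos k with hk0 | hk0
  · subst hk0
    have h1 := tileable_translate (a + 1)
      (tileable_fin_of_le (show 1 ≤ d by omega) (tileable_interval n (by omega)))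
    convert h1 using 2
    ext t
    simp only [Set.mem_sdiff, Set.mem_Icc, Set.mem_singleton_iff, Set.mem_ofPred_eq]
    push_cast
    omega
  · rcases Nat.lt_or_ge k n with hkn | hkn
    · have h1 := tileable_translate a (tileable_fin_of_le hd (tile_fin_ten n k hk0 hkn))
      convert h1 using 2
      ext t
      simp only [tile, Set.mem_sdiff, Set.mem_Icc, Set.mem_singleton_iff, Set.mem_ofPred_eq]
      omega
    · have hkn' : k = n := by omega
      subst hkn'
      have h1 := tileable_translate a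
        (tileable_fin_of_le (show 1 ≤ d by omega) (tileable_interval k (by omega)))
      convert h1 using 2
      ext t
      simp only [Set.mem_sdiff, Set.mem_Icc, Set.mem_singleton_iff, Set.mem_ofPred_eq]
      omega

end Pool.Agent.W_MP_3bfddb_co
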